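import Mathlib

/-!
# Reductive operators quasi-similar to normal operators are normal (MP_65e938_an)

Let `A` be quasi-similar to the normal operator `N`, `X A = N X`, `A Y = Y N`, and let every closed
invariant subspace of `A` reduce `A`.  For a projection `E` in the bicommutant of `N` let `M(E)` be the
closed span of `S Y E K`, with `S` in the commutant of `A`.  It is hyperinvariant for `A`, so its
projection `R` commutes with `A`, and `X M(E) ⊆ E K`.  Applying `R` to `M(1 - E)` gives `X R = E X`;
hence `X X*` commutes with every such `E`, therefore with `N`, and this forces `A` to be normal.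
-/

set_option autoImplicit false
open scoped InnerProductSpace

namespace Pool.Agent.Results.MP_65e938_an.ReductiveQuasiSimilar

universe u v

section defs

variable {H : Type u} [NormedAddCommGroup H] [InnerProductSpace ℂ H] [CompleteSpace H]
variable {K : Type v} [NormedAddCommGroup K] [InnerProductSpace ℂ K] [CompleteSpace K]

/-- A quasi-affinity: a bounded operator that is injective and has dense range. -/
def IsQuasiAffinity (X : H →L[ℂ] K) : Prop := Function.Injective X ∧ DenseRange X

/-- `A` and `B` are quasi-similar: `X A = B X` and `A Y = Y B` for quasi-affinities `X`, `Y`. -/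
def IsQuasiSimilar (A : H →L[ℂ] H) (B : K →L[ℂ] K) : Prop :=
  ∃ (X : H →L[ℂ] K) (Y : K →L[ℂ] H), IsQuasiAffinity X ∧ IsQuasiAffinity Y ∧
    X.comp A = B.comp X ∧ A.comp Y = Y.comp B

/-- The algebra generated by `A`: the closure, in the weak operator topology, of the
algebra of polynomials in `A` (with the identity). -/
def generatedAlgebra (A : H →L[ℂ] H) : Set (H →L[ℂ] H) :=
  {S | ContinuousLinearMapWOT.ofCLM S ∈ closure (ContinuousLinearMapWOT.ofCLM ''
    (Algebra.adjoin ℂ {A} : Set (H →L[ℂ] H)))}

/-- A set of operators is reductive if every closed subspace invariant under all of its members is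
also invariant under all their adjoints. -/
def IsReductive (𝔄 : Set (H →L[ℂ] H)) : Prop :=
  ∀ M : Submodule ℂ H, IsClosed (M : Set H) → (∀ S ∈ 𝔄, ∀ x ∈ M, S x ∈ M) →
    ∀ S ∈ 𝔄, ∀ x ∈ M, ContinuousLinearMap.adjoint S x ∈ M

end defs

section single

variable {K : Type v} [NormedAddCommGroup K] [InnerProductSpace ℂ K] [CompleteSpace K]

/-- `E` lies in the bicommutant of `N`. -/
def InBicomm (N E : K →L[ℂ] K) : Prop := ∀ C : K →L[ℂ] K, Commute C N → Commute C E

open ContinuousLinearMap in
/-- The orthogonal projection onto the closure of the range of a self-adjoint `F` commutes with every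
`C` such that `C` and `C*` commute with `F`. -/
lemma proj_commute (F C : K →L[ℂ] K) (h1 : Commute C F) (h2 : Commute (adjoint C) F) :
    Commute C ((LinearMap.range (F : K →ₗ[ℂ] K)).topologicalClosure).starProjection := by
  set M : Submodule ℂ K := (LinearMap.range (F : K →ₗ[ℂ] K)).topologicalClosure with hM
  have hinv : ∀ D : K →L[ℂ] K, Commute D F → ∀ x ∈ M, D x ∈ M := by
    intro D hD x hx
    have hcl : IsClosed (M : Set K) := Submodule.isClosed_topologicalClosure _
    have : M ≤ M.comap (D : K →ₗ[ℂ] K) := by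
      refine Submodule.topologicalClosure_minimal _ ?_ (hcl.preimage D.continuous)
      rintro _ ⟨k, rfl⟩
      show D (F k) ∈ M
      have e : D (F k) = F (D k) := congrArg (fun T : K →L[ℂ] K => T k) hD.eq
      rw [e]
      exact Submodule.le_topologicalClosure _ ⟨D k, rfl⟩
    exact this hx
  ext x
  show C (M.starProjection x) = M.starProjection (C x)
  have hx : x = M.starProjection x + (x - M.starProjection x) := by abel
  have h3 : x - M.starProjection x ∈ Mᗮ := by
    exact Submodule.sub_starProjection_mem_orthogonal (K := M) x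
  have h4 : C (x - M.starProjection x) ∈ Mᗮ := by
    rw [Submodule.mem_orthogonal]
    intro u hu
    rw [← adjoint_inner_left]
    exact (Submodule.mem_orthogonal M _).1 h3 _ (hinv _ h2 u hu)
  have h5 : C (M.starProjection x) ∈ M := hinv _ h1 _ (Submodule.starProjection_apply_mem _ _)
  have h6 : C x = C (M.starProjection x) + C (x - M.starProjection x) := by
    rw [← map_add]; congr 1
  rw [h6, map_add, Submodule.starProjection_eq_self_iff.2 h5,
    (Submodule.starProjection_apply_eq_zero_iff (K := M)).2 h4, add_zero]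

/-- One binary digit. -/
lemma binary_step (L : K →L[ℂ] K) (h0 : 0 ≤ L) (h1 : L ≤ 1) :
    ∃ E : K →L[ℂ] K, IsStarProjection E ∧ InBicomm L E ∧ 0 ≤ 2 • L - E ∧ 2 • L - E ≤ 1 := by
  have hLsa : IsSelfAdjoint L := IsSelfAdjoint.of_nonneg h0
  set a : K →L[ℂ] K := 2 • L - 1 with ha
  have hasa : IsSelfAdjoint a := by
    have : IsSelfAdjoint (2 • L) := by simpa [two_smul] using hLsa.add hLsa
    exact this.sub (IsSelfAdjoint.one _)
  set P : K →L[ℂ] K := a⁺ with hP
  set Q : K →L[ℂ] K := a⁻ with hQ
  have hPQ : P - Q = a := CFC.posPart_sub_negPart a hasa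
  have hP0 : 0 ≤ P := CFC.posPart_nonneg a
  have hQ0 : 0 ≤ Q := CFC.negPart_nonneg a
  have hQP : Q * P = 0 := CFC.negPart_mul_posPart a
  set M : Submodule ℂ K := (LinearMap.range (P : K →ₗ[ℂ] K)).topologicalClosure with hM
  set E : K →L[ℂ] K := M.starProjection with hE
  have hEp : IsStarProjection E := isStarProjection_starProjection
  have hEs : IsSelfAdjoint E := hEp.isSelfAdjoint
  have hEE : E * E = E := hEp.isIdempotentElem
  have hEP : E * P = P := by
    ext x
    show E (P x) = P x
    exact Submodule.starProjection_eq_self_iff.2 (Submodule.le_topologicalClosure _ ⟨x, rfl⟩)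
  have hPs : IsSelfAdjoint P := IsSelfAdjoint.of_nonneg hP0
  have hQs : IsSelfAdjoint Q := IsSelfAdjoint.of_nonneg hQ0
  have hPE : P * E = P := by
    have := congrArg star hEP
    rwa [star_mul, hPs.star_eq, hEs.star_eq] at this
  have hQE : Q * E = 0 := by
    ext x
    show Q (E x) = 0
    have hle : M ≤ LinearMap.ker (Q : K →ₗ[ℂ] K) := by
      refine Submodule.topologicalClosure_minimal _ ?_ (ContinuousLinearMap.isClosed_ker Q)
      rintro _ ⟨k, rfl⟩
      show Q (P k) = 0
      exact congrArg (fun T : K →L[ℂ] K => T k) hQP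
    exact hle (Submodule.starProjection_apply_mem _ _)
  have hEQ : E * Q = 0 := by
    have := congrArg star hQE
    rwa [star_mul, hQs.star_eq, hEs.star_eq, star_zero] at this
  have h1E : IsSelfAdjoint (1 - E) := (IsSelfAdjoint.one _).sub hEs
  -- P ≤ 1 , Q ≤ 1
  have hPc : P * P = P * a := by rw [← hPQ, mul_sub, CFC.posPart_mul_negPart, sub_zero]
  have ha1 : a ≤ 1 := by
    rw [ha, sub_le_iff_le_add]
    have : (2 : ℕ) • L ≤ (2 : ℕ) • (1 : K →L[ℂ] K) := nsmul_le_nsmul_right h1 2
    simpa [two_smul] using this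
  have ha2 : -1 ≤ a := by
    rw [ha, le_sub_iff_add_le, neg_add_cancel]
    exact nsmul_nonneg h0 2
  have hPle : P ≤ E := by
    -- E a E = P
    have e1 : E * a * E = P := by
      rw [← hPQ, mul_sub, sub_mul, hEP, hPE, hEQ, zero_mul, sub_zero]
    have := hEs.conjugate_le_conjugate ha1
    rwa [e1, mul_one, hEE] at this
  have hQle : Q ≤ 1 - E := by
    have e21 : (1 - E) * (Q - P) = Q := by
      rw [sub_mul, one_mul, mul_sub, hEQ, hEP]; abel
    have e2 : (1 - E) * (-a) * (1 - E) = Q := by
      rw [← hPQ, neg_sub, e21, mul_sub, mul_one, hQE, sub_zero]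
    have e3 : (1 - E) * 1 * (1 - E) = 1 - E := by
      rw [mul_one, mul_sub, mul_one, sub_mul, one_mul, hEE, sub_self, sub_zero]
    have := h1E.conjugate_le_conjugate (neg_le.1 ha2)
    rwa [e2, e3] at this
  have hfin : 2 • L - E = P + ((1 - E) - Q) := by
    have : 2 • L = P - Q + 1 := by rw [hPQ, ha]; abel
    rw [this]; abel
  refine ⟨E, hEp, ?_, ?_, ?_⟩
  · intro C hC
    have c1 : Commute C a := by
      rw [ha]
      exact (Commute.sub_right (by simpa [two_smul] using hC.add_right hC) (Commute.one_right C))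
    have c2 : Commute (ContinuousLinearMap.adjoint C) a := by
      have := congrArg star c1.eq
      rw [star_mul, star_mul, hasa.star_eq] at this
      exact this.symm
    have hcP : ∀ D : K →L[ℂ] K, Commute D a → Commute D P := fun D hD =>
      (Commute.cfcₙ_real hD.symm (·⁺)).symm
    exact proj_commute P C (hcP C c1) (hcP _ c2)
  · rw [hfin]
    exact add_nonneg hP0 (sub_nonneg.2 hQle)
  · rw [hfin]
    have : P + (1 - E - Q) = (P - E) + (1 - Q) := by abel
    rw [this]
    have h2 : P - E ≤ 0 := sub_nonpos.2 hPle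
    have h3 : (1 : K →L[ℂ] K) - Q ≤ 1 := by simpa using hQ0
    simpa using add_le_add h2 h3

/-- If `D` commutes with all projections in the bicommutant of `L`, `0 ≤ L ≤ 1`, it commutes with `L`. -/
lemma commute_of_projections (L D : K →L[ℂ] K) (h0 : 0 ≤ L) (h1 : L ≤ 1)
    (hD : ∀ E : K →L[ℂ] K, IsStarProjection E → InBicomm L E → Commute D E) : Commute D L := by
  have key : ∀ n : ℕ, ∃ L' : K →L[ℂ] K, 0 ≤ L' ∧ L' ≤ 1 ∧ InBicomm L L' ∧
      (2 ^ n : ℕ) • (D * L - L * D) = D * L' - L' * D := by
    intro n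
    induction n with
    | zero => exact ⟨L, h0, h1, fun C hC => hC, by simp⟩
    | succ n ih =>
      obtain ⟨L', h0', h1', hb, he⟩ := ih
      obtain ⟨E, hE1, hE2, hE3, hE4⟩ := binary_step L' h0' h1'
      have hEb : InBicomm L E := fun C hC => hE2 C (hb C hC)
      refine ⟨2 • L' - E, hE3, hE4, fun C hC => ?_, ?_⟩
      · exact Commute.sub_right (by simpa [two_smul] using (hb C hC).add_right (hb C hC)) (hEb C hC)
      · have hc := (hD E hE1 hEb).eq
        have e1 : (2 ^ (n + 1) : ℕ) • (D * L - L * D) = 2 • (D * L' - L' * D) := by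
          rw [pow_succ', mul_smul, he]
        rw [e1, mul_sub, sub_mul, hc, two_smul, two_smul, mul_add, add_mul]
        abel
  have hb : ∀ n : ℕ, (2 : ℝ) ^ n * ‖D * L - L * D‖ ≤ 2 * ‖D‖ := by
    intro n
    obtain ⟨L', h0', h1', -, he⟩ := key n
    have hn : ‖L'‖ ≤ 1 := by
      have := CStarAlgebra.norm_le_norm_of_nonneg_of_le h0' h1'
      refine this.trans ?_
      exact ContinuousLinearMap.norm_id_le
    have h3 : ‖(2 ^ n : ℕ) • (D * L - L * D)‖ = (2 : ℝ) ^ n * ‖D * L - L * D‖ := by
      rw [← Nat.cast_smul_eq_nsmul ℝ, norm_smul]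
      simp
    rw [← h3, he]
    calc ‖D * L' - L' * D‖ ≤ ‖D * L'‖ + ‖L' * D‖ := norm_sub_le _ _
      _ ≤ ‖D‖ * ‖L'‖ + ‖L'‖ * ‖D‖ := add_le_add (norm_mul_le _ _) (norm_mul_le _ _)
      _ ≤ ‖D‖ * 1 + 1 * ‖D‖ := by gcongr
      _ = 2 * ‖D‖ := by ring
  have h4 : ‖D * L - L * D‖ = 0 := by
    by_contra hne
    have hpos : 0 < ‖D * L - L * D‖ := lt_of_le_of_ne (norm_nonneg _) (Ne.symm hne)
    obtain ⟨n, hn⟩ := pow_unbounded_of_one_lt (2 * ‖D‖ / ‖D * L - L * D‖) (by norm_num : (1:ℝ) < 2)
    rw [div_lt_iff₀ hpos] at hn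
    exact absurd (hb n) (not_le.2 hn)
  exact sub_eq_zero.1 (norm_eq_zero.1 h4)

end single

section main

variable {H : Type u} [NormedAddCommGroup H] [InnerProductSpace ℂ H] [CompleteSpace H]
variable {K : Type v} [NormedAddCommGroup K] [InnerProductSpace ℂ K] [CompleteSpace K]

open ContinuousLinearMap in
/-- The key relation `X R = E X`. -/
lemma exists_R (A : H →L[ℂ] H) (N : K →L[ℂ] K) (X : H →L[ℂ] K) (Y : K →L[ℂ] H)
    (hX : Function.Injective X) (hY : DenseRange Y)
    (hXA : X.comp A = N.comp X) (hAY : A.comp Y = Y.comp N)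
    (hred : ∀ M : Submodule ℂ H, IsClosed (M : Set H) → (∀ x ∈ M, A x ∈ M) →
      ∀ x ∈ M, adjoint A x ∈ M)
    (E : K →L[ℂ] K) (hE : IsStarProjection E) (hEb : InBicomm N E) :
    ∃ R : H →L[ℂ] H, IsSelfAdjoint R ∧ X.comp R = E.comp X := by
  -- the subspaces `M(F)`
  let M : (K →L[ℂ] K) → Submodule ℂ H := fun F =>
    (Submodule.span ℂ {x : H | ∃ (S : H →L[ℂ] H) (k : K), Commute S A ∧ x = S (Y (F k))}).topologicalClosure
  have hMcl : ∀ F, IsClosed (M F : Set H) := fun F => Submodule.isClosed_topologicalClosure _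
  have hMmem : ∀ F (S : H →L[ℂ] H) (k : K), Commute S A → S (Y (F k)) ∈ M F := fun F S k hS =>
    Submodule.le_topologicalClosure _ (Submodule.subset_span ⟨S, k, hS, rfl⟩)
  -- minimality
  have hMmin : ∀ F (W : Submodule ℂ H), IsClosed (W : Set H) →
      (∀ (S : H →L[ℂ] H) (k : K), Commute S A → S (Y (F k)) ∈ W) → M F ≤ W := by
    intro F W hW h
    refine Submodule.topologicalClosure_minimal _ (Submodule.span_le.2 ?_) hW
    rintro _ ⟨S, k, hS, rfl⟩
    exact h S k hS
  -- hyperinvariance
  have hMinv : ∀ F (T : H →L[ℂ] H), Commute T A → ∀ x ∈ M F, T x ∈ M F := by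
    intro F T hT x hx
    have : M F ≤ (M F).comap (T : H →ₗ[ℂ] H) := by
      refine hMmin F _ ((hMcl F).preimage T.continuous) ?_
      intro S k hS
      exact hMmem F (T * S) k (hT.mul_left hS)
    exact this hx
  -- `X S Y` commutes with `N`
  have hXSY : ∀ S : H →L[ℂ] H, Commute S A → Commute (X.comp (S.comp Y)) N := by
    intro S hS
    ext k
    show X (S (Y (N k))) = N (X (S (Y k)))
    have e1 : Y (N k) = A (Y k) := (congrArg (fun T : K →L[ℂ] H => T k) hAY).symm
    have e2 : S (A (Y k)) = A (S (Y k)) := congrArg (fun T : H →L[ℂ] H => T (Y k)) hS.eq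
    have e3 : X (A (S (Y k))) = N (X (S (Y k))) :=
      congrArg (fun T : H →L[ℂ] K => T (S (Y k))) hXA
    rw [e1, e2, e3]
  -- `X` maps `M E` into the range of `E` and `M (1 - E)` into the kernel
  have hXE : ∀ x ∈ M E, E (X x) = X x := by
    intro x hx
    have hle : M E ≤ LinearMap.ker ((E.comp X - X : H →L[ℂ] K) : H →ₗ[ℂ] K) := by
      refine hMmin E _ (ContinuousLinearMap.isClosed_ker _) ?_
      intro S k hS
      have e := congrArg (fun T : K →L[ℂ] K => T (E k)) (hEb _ (hXSY S hS)).eq
      have e' : X (S (Y (E (E k)))) = E (X (S (Y (E k)))) := e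
      have e'' : E (E k) = E k := congrArg (fun T : K →L[ℂ] K => T k) hE.isIdempotentElem
      rw [LinearMap.mem_ker]
      show E (X (S (Y (E k)))) - X (S (Y (E k))) = 0
      rw [← e', e'', sub_self]
    have := hle hx
    rw [LinearMap.mem_ker] at this
    exact sub_eq_zero.1 this
  have hXE' : ∀ x ∈ M (1 - E), E (X x) = 0 := by
    intro x hx
    have hle : M (1 - E) ≤ LinearMap.ker ((E.comp X : H →L[ℂ] K) : H →ₗ[ℂ] K) := by
      refine hMmin _ _ (ContinuousLinearMap.isClosed_ker _) ?_
      intro S k hS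
      have e := congrArg (fun T : K →L[ℂ] K => T ((1 - E) k)) (hEb _ (hXSY S hS)).eq
      have e' : X (S (Y (E ((1 - E) k)))) = E (X (S (Y ((1 - E) k)))) := e
      have e'' : E ((1 - E) k) = 0 := by
        have : E * (1 - E) = 0 := by rw [mul_sub, mul_one, hE.isIdempotentElem.eq, sub_self]
        exact congrArg (fun T : K →L[ℂ] K => T k) this
      rw [LinearMap.mem_ker]
      show E (X (S (Y ((1 - E) k)))) = 0
      rw [← e', e'', map_zero, map_zero, map_zero]
    have := hle hx
    rwa [LinearMap.mem_ker] at this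
  have : CompleteSpace (M E) := (hMcl E).completeSpace_coe
  set R : H →L[ℂ] H := (M E).starProjection with hR
  have hRsa : IsSelfAdjoint R := (isStarProjection_starProjection (U := M E)).isSelfAdjoint
  -- `R` commutes with `A`
  have hRA : Commute R A := by
    have hAinv : ∀ x ∈ M E, A x ∈ M E := hMinv E A (Commute.refl A)
    have hA'inv : ∀ x ∈ M E, adjoint A x ∈ M E := hred _ (hMcl E) hAinv
    ext x
    show R (A x) = A (R x)
    have h3 : x - R x ∈ (M E)ᗮ := Submodule.sub_starProjection_mem_orthogonal (K := M E) x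
    have h4 : A (x - R x) ∈ (M E)ᗮ := by
      rw [Submodule.mem_orthogonal]
      intro u hu
      rw [← adjoint_inner_left]
      exact (Submodule.mem_orthogonal (M E) _).1 h3 _ (hA'inv u hu)
    have h5 : A (R x) ∈ M E := hAinv _ (Submodule.starProjection_apply_mem _ _)
    have h6 : A x = A (R x) + A (x - R x) := by rw [← map_add]; congr 1; abel
    rw [h6, map_add, hR, Submodule.starProjection_eq_self_iff.2 h5,
      (Submodule.starProjection_apply_eq_zero_iff (K := M E)).2 h4, add_zero]
  -- `R` kills `M (1 - E)`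
  have hR0 : ∀ x ∈ M (1 - E), R x = 0 := by
    intro x hx
    have h1 : R x ∈ M E := Submodule.starProjection_apply_mem _ _
    have h2 : R x ∈ M (1 - E) := hMinv _ R hRA x hx
    have h3 := hXE _ h1
    rw [hXE' _ h2] at h3
    exact hX (by rw [← h3, map_zero])
  refine ⟨R, hRsa, ?_⟩
  -- both sides agree on the range of `Y`
  have hagree : ∀ x ∈ Set.range Y, (X.comp R) x = (E.comp X) x := by
    rintro _ ⟨k, rfl⟩
    have hk : k = E k + (1 - E) k := by
      show k = E k + (k - E k)
      abel
    have m1 : Y (E k) ∈ M E := by simpa using hMmem E 1 k (Commute.one_left A)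
    have m2 : Y ((1 - E) k) ∈ M (1 - E) := by simpa using hMmem (1 - E) 1 k (Commute.one_left A)
    have hYk : Y k = Y (E k) + Y ((1 - E) k) := by rw [← map_add, ← hk]
    show X (R (Y k)) = E (X (Y k))
    rw [hYk, map_add, map_add, map_add, map_add, hR0 _ m2, map_zero, hXE _ m1, hXE' _ m2, hR,
      Submodule.starProjection_eq_self_iff.2 m1]
  have hclosed : IsClosed {x | (X.comp R) x = (E.comp X) x} :=
    isClosed_eq (X.comp R).continuous (E.comp X).continuous
  ext x
  exact hclosed.closure_subset_iff.2 (fun y hy => hagree y hy) (hY x)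

open ContinuousLinearMap in
/-- A general form: `X` injective, `Y` with dense range, `X A = N X`, `A Y = Y N`, `N` normal, and every
closed invariant subspace of `A` reduces `A`; then `A` is normal. -/
theorem normal_of_reducing (A : H →L[ℂ] H) (N : K →L[ℂ] K) (hN : IsStarNormal N)
    (X : H →L[ℂ] K) (Y : K →L[ℂ] H) (hX : Function.Injective X) (hY : DenseRange Y)
    (hXA : X.comp A = N.comp X) (hAY : A.comp Y = Y.comp N)
    (hred : ∀ M : Submodule ℂ H, IsClosed (M : Set H) → (∀ x ∈ M, A x ∈ M) →
      ∀ x ∈ M, adjoint A x ∈ M) : IsStarNormal A := by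
  set D : K →L[ℂ] K := X.comp (adjoint X) with hD
  -- `D` commutes with the projections in the bicommutant of `N`
  have hDE : ∀ E : K →L[ℂ] K, IsStarProjection E → InBicomm N E → Commute D E := by
    intro E hE hEb
    obtain ⟨R, hRsa, hXR⟩ := exists_R A N X Y hX hY hXA hAY hred E hE hEb
    have h1 : R.comp (adjoint X) = (adjoint X).comp E := by
      have := congrArg adjoint hXR
      rw [adjoint_comp, adjoint_comp] at this
      have e1 : adjoint R = R := hRsa
      have e2 : adjoint E = E := hE.isSelfAdjoint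
      rwa [e1, e2] at this
    show (X.comp (adjoint X)).comp E = E.comp (X.comp (adjoint X))
    rw [ContinuousLinearMap.comp_assoc, ← h1, ← ContinuousLinearMap.comp_assoc, hXR,
      ContinuousLinearMap.comp_assoc]
  -- `D` commutes with the self-adjoint elements of the bicommutant
  have hDL : ∀ L : K →L[ℂ] K, IsSelfAdjoint L → InBicomm N L → Commute D L := by
    intro L hL hLb
    set c : ℝ := ‖L‖ + 1 with hc
    have hc0 : 0 < c := by positivity
    set L₁ : K →L[ℂ] K := (1 / (2 * c)) • (L + algebraMap ℝ _ c) with hL₁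
    have hLle : L ≤ algebraMap ℝ _ ‖L‖ := hL.le_algebraMap_norm_self
    have hLge : - algebraMap ℝ _ ‖L‖ ≤ L := hL.neg_algebraMap_norm_le_self
    have hmono : algebraMap ℝ (K →L[ℂ] K) ‖L‖ ≤ algebraMap ℝ _ c :=
      algebraMap_mono _ (by rw [hc]; linarith)
    have h0 : 0 ≤ L₁ := by
      refine smul_nonneg (by positivity) ?_
      have : - algebraMap ℝ _ c ≤ L := (neg_le_neg hmono).trans hLge
      rwa [neg_le_iff_add_nonneg] at this
    have h1 : L₁ ≤ 1 := by
      have h2 : L + algebraMap ℝ _ c ≤ algebraMap ℝ _ (2 * c) := by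
        have e : algebraMap ℝ (K →L[ℂ] K) (2 * c) = algebraMap ℝ _ c + algebraMap ℝ _ c := by
          rw [two_mul, map_add]
        rw [e]
        exact add_le_add (hLle.trans hmono) le_rfl
      have h3 := smul_le_smul_of_nonneg_left h2 (by positivity : 0 ≤ 1 / (2 * c))
      have h4 : (1 / (2 * c)) • algebraMap ℝ (K →L[ℂ] K) (2 * c) = 1 := by
        rw [Algebra.algebraMap_eq_smul_one, smul_smul, one_div, inv_mul_cancel₀ (by positivity),
          one_smul]
      rwa [h4] at h3
    have hb : ∀ C : K →L[ℂ] K, Commute C L → Commute C L₁ := fun C hC =>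
      (hC.add_right (Algebra.commute_algebraMap_right c C)).smul_right _
    have h5 : Commute D L₁ := commute_of_projections L₁ D h0 h1 (fun E hE hEb =>
      hDE E hE (fun C hC => hEb C (hb C (hLb C hC))))
    have h6 : L = (2 * c) • L₁ - algebraMap ℝ _ c := by
      rw [hL₁, smul_smul, mul_one_div_cancel (by positivity), one_smul, add_sub_cancel_right]
    rw [h6]
    exact (h5.smul_right _).sub_right (Algebra.commute_algebraMap_right c D)
  have hDN : Commute D N := by
    have hstar : ∀ C : K →L[ℂ] K, Commute C N → Commute C (star N) := fun C hC =>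
      hN.commute_star_right hC
    have e : N = (realPart N : K →L[ℂ] K) + Complex.I • (imaginaryPart N : K →L[ℂ] K) :=
      (realPart_add_I_smul_imaginaryPart N).symm
    have hre : ∀ C : K →L[ℂ] K, Commute C N → Commute C (realPart N : K →L[ℂ] K) := by
      intro C hC
      rw [realPart_apply_coe]
      exact (hC.add_right (hstar C hC)).smul_right _
    have him : ∀ C : K →L[ℂ] K, Commute C N → Commute C (imaginaryPart N : K →L[ℂ] K) := by
      intro C hC
      rw [imaginaryPart_apply_coe]
      exact ((hC.sub_right (hstar C hC)).smul_right _).smul_right _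
    rw [e]
    exact (hDL _ (realPart N).2 hre).add_right ((hDL _ (imaginaryPart N).2 him).smul_right _)
  -- conclusion
  have h1 : (adjoint X).comp N = A.comp (adjoint X) := by
    have h2 : ∀ k, X (adjoint X (N k)) = X (A (adjoint X k)) := by
      intro k
      have e1 : X (adjoint X (N k)) = N (X (adjoint X k)) :=
        congrArg (fun T : K →L[ℂ] K => T k) hDN.eq
      have e2 : X (A (adjoint X k)) = N (X (adjoint X k)) :=
        congrArg (fun T : H →L[ℂ] K => T (adjoint X k)) hXA
      rw [e1, e2]
    ext k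
    exact hX (h2 k)
  have h2 : (adjoint N).comp X = X.comp (adjoint A) := by
    have := congrArg adjoint h1
    rwa [adjoint_comp, adjoint_comp, adjoint_adjoint] at this
  refine ⟨?_⟩
  show (adjoint A) * A = A * (adjoint A)
  ext x
  apply hX
  have e1 : X (adjoint A (A x)) = adjoint N (X (A x)) :=
    (congrArg (fun T : H →L[ℂ] K => T (A x)) h2).symm
  have e2 : X (A x) = N (X x) := congrArg (fun T : H →L[ℂ] K => T x) hXA
  have e3 : X (A (adjoint A x)) = N (X (adjoint A x)) :=
    congrArg (fun T : H →L[ℂ] K => T (adjoint A x)) hXA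
  have e4 : X (adjoint A x) = adjoint N (X x) :=
    (congrArg (fun T : H →L[ℂ] K => T x) h2).symm
  have e5 : adjoint N (N (X x)) = N (adjoint N (X x)) :=
    congrArg (fun T : K →L[ℂ] K => T (X x)) hN.star_comm_self.eq
  show X (adjoint A (A x)) = X (A (adjoint A x))
  rw [e1, e2, e3, e4, e5]

/-- An invariant subspace of `A` is invariant under the weakly closed algebra generated by `A`. -/
lemma invariant_generatedAlgebra (A : H →L[ℂ] H) (M : Submodule ℂ H) (hM : IsClosed (M : Set H))
    (hA : ∀ x ∈ M, A x ∈ M) : ∀ S ∈ generatedAlgebra A, ∀ x ∈ M, S x ∈ M := by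
  have hadj : ∀ S ∈ Algebra.adjoin ℂ {A}, ∀ x ∈ M, S x ∈ M := by
    intro S hS
    induction hS using Algebra.adjoin_induction with
    | mem S hS => rw [Set.mem_singleton_iff.1 hS]; exact hA
    | algebraMap c => intro x hx; exact M.smul_mem c hx
    | add S T _ _ h1 h2 => intro x hx; exact M.add_mem (h1 x hx) (h2 x hx)
    | mul S T _ _ h1 h2 => intro x hx; exact h1 _ (h2 x hx)
  intro S hS x hx
  have hcl : (Mᗮ)ᗮ = M := by
    rw [Submodule.orthogonal_orthogonal_eq_closure]
    exact IsClosed.submodule_topologicalClosure_eq hM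
  rw [← hcl, Submodule.mem_orthogonal]
  intro y hy
  have hcont : Continuous fun T : H →WOT[ℂ] H => inner ℂ y (T x) :=
    ContinuousLinearMapWOT.continuous_iff.1 continuous_id x y
  have hclosed : IsClosed {T : H →WOT[ℂ] H | inner ℂ y (T x) = 0} := isClosed_eq hcont continuous_const
  have hsub : ContinuousLinearMapWOT.ofCLM '' (Algebra.adjoin ℂ {A} : Set (H →L[ℂ] H)) ⊆
      {T : H →WOT[ℂ] H | inner ℂ y (T x) = 0} := by
    rintro _ ⟨T, hT, rfl⟩
    exact (Submodule.mem_orthogonal' M y).1 hy _ (hadj T hT x hx)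
  exact hclosed.closure_subset_iff.2 hsub hS

/-- **Answer to Q1 (yes).**  If `A` is quasi-similar to some normal operator and the weakly closed
algebra generated by `A` is reductive, then `A` is normal. -/
theorem result (A : H →L[ℂ] H)
    (hqs : ∃ (K : Type v) (_ : NormedAddCommGroup K) (_ : InnerProductSpace ℂ K)
      (_ : CompleteSpace K) (N : K →L[ℂ] K), IsStarNormal N ∧ IsQuasiSimilar A N)
    (hred : IsReductive (generatedAlgebra A)) : IsStarNormal A := by
  obtain ⟨K, _, _, _, N, hN, X, Y, hX, hY, hXA, hAY⟩ := hqs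
  refine normal_of_reducing A N hN X Y hX.1 hY.2 hXA hAY (fun M hM hA => ?_)
  refine hred M hM (invariant_generatedAlgebra A M hM hA) A ?_
  exact subset_closure ⟨A, Algebra.self_mem_adjoin_singleton ℂ A, rfl⟩

end main

end Pool.Agent.Results.MP_65e938_an.ReductiveQuasiSimilar
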